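import Pool.Agent.H60S1.Asm
import Pool.Agent.H57K2.Level3
import Pool.Agent.H60G2.End1
import Pool.Agent.H60G2.Lin
import Pool.Agent.H97CB.CB

/-!
# Single exchanges: the application to represented matroids
-/

set_option autoImplicit false

namespace Pool.Agent.H60S1

open Finset

/-- The level step: if all levels below `k` vanish for `P` and for the complements, and
`r + 2 < 4 k`, then the level `k` vanishes. -/
def LevelStep (K : Type*) [Field K] (E : Type*) [Fintype E] [DecidableEq E] (r : ℕ) : Prop :=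
  ∀ (F : Finset E → K) (N₁ N₂ : Matroid E), N₁.E = Set.univ → N₂.E = Set.univ →
    (∀ A : Finset E, N₁.Indep (A : Set E) → A.card = r → N₁.IsBase (A : Set E)) →
    (∀ A : Finset E, N₂.Indep (A : Set E) → A.card = r → N₂.IsBase (A : Set E)) →
    (∀ A : Finset E, F A ≠ 0 ↔ A.card = r ∧ N₁.Indep (A : Set E) ∧ N₂.Indep (A : Set E)) →
    (∀ A : Finset E, A.card = r → F Aᶜ = (-1) ^ r * F A) →
    (∀ C : Finset E, C.card < r → ∑ A ∈ univ.filter (fun A => C ⊆ A), F A = 0) →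
    ∀ j : ℕ, r + 2 < 4 * j → j ≤ r →
    (∀ P, Closed r F P → ∀ C : Finset E, r < C.card + j → C.card < r → up (res F P) C = 0) →
    ∀ P, Closed r F P → ∀ C : Finset E, C.card + j = r → up (res F P) C = 0

/-- The level three. -/
def LevelThree (K : Type*) [Field K] (E : Type*) [Fintype E] [DecidableEq E] (r : ℕ) : Prop :=
  ∀ (F : Finset E → K) (N₁ N₂ : Matroid E),
    (∀ A : Finset E, N₁.Indep (A : Set E) → A.card = r → N₁.IsBase (A : Set E)) →
    (∀ A : Finset E, N₂.Indep (A : Set E) → A.card = r → N₂.IsBase (A : Set E)) →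
    (∀ A : Finset E, F A ≠ 0 ↔ A.card = r ∧ N₁.Indep (A : Set E) ∧ N₂.Indep (A : Set E)) →
    (∀ C : Finset E, C.card < r → ∑ A ∈ univ.filter (fun A => C ⊆ A), F A = 0) →
    ∀ P, Closed r F P → ∀ C : Finset E, C.card + 3 = r → up (res F P) C = 0

theorem levelThree (K : Type*) [Field K] (E : Type*) [Fintype E] [DecidableEq E] (r : ℕ) :
    LevelThree K E r := by
  intro F N₁ N₂ hb1 hb2 hF htot P hP C hC
  rw [up_res]
  exact H57K2.sum_three r F P htot N₁ N₂ hb1 hb2 hF hP C hC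

variable {K : Type*} [Field K]

/-- The path for vectors. -/
theorem core1 {r : ℕ} (LS : LevelStep K (Fin r ⊕ Fin r) r)
    (hcond : ∀ j, 4 ≤ j → 4 * j ≤ r + 2 → ∃ i, 0 < i ∧ i < j ∧ ((j.choose i : ℕ) : K) ≠ 0)
    (v w : Fin r ⊕ Fin r → Fin r → K)
    (hrel : ∀ i j, ∑ x, v x i * w x j = 0) (S : Finset (Fin r ⊕ Fin r)) (hS : S.card = r)
    (hd : (H60G2.msum v w S).det ≠ 0) : Relation.ReflTransGen (H60G2.MStep1 v w) S Sᶜ := by
  have hv := H60G2.indep_left v w S hS hd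
  have hw := H60G2.indep_right v w S hS hd
  have hE : Fintype.card (Fin r ⊕ Fin r) = 2 * r := by simp [two_mul]
  have hF : ∀ A : Finset (Fin r ⊕ Fin r), H97CB.FF v w A ≠ 0 ↔ A.card = r ∧
      (H60G2.lin (K := K) v).Indep (A : Set (Fin r ⊕ Fin r)) ∧
        (H60G2.lin (K := K) w).Indep (A : Set (Fin r ⊕ Fin r)) := by
    intro A
    rw [H97CB.FF_ne_zero, H60G2.lin_indep, H60G2.lin_indep]
  have hFM : ∀ A, H97CB.FF v w A ≠ 0 → A.card = r ∧ (H60G2.msum v w A).det ≠ 0 := by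
    intro A hA
    unfold H97CB.FF at hA
    split_ifs at hA with h
    · exact ⟨h, hA⟩
    · exact absurd rfl hA
  have hFc : ∀ A : Finset (Fin r ⊕ Fin r), A.card = r →
      H97CB.FF v w Aᶜ = (-1) ^ r * H97CB.FF v w A := by
    intro A hA
    have hAc : Aᶜ.card = r := by
      rw [card_compl, hE, hA]
      omega
    unfold H97CB.FF
    rw [if_pos hA, if_pos hAc]
    exact H60G2.det_msum_compl v w hrel A
  have hfr : Module.finrank K (Fin r → K) = r := by simp
  have hb1 : ∀ A : Finset (Fin r ⊕ Fin r), (H60G2.lin (K := K) v).Indep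
      (A : Set (Fin r ⊕ Fin r)) → A.card = r → (H60G2.lin (K := K) v).IsBase
      (A : Set (Fin r ⊕ Fin r)) := fun A h1 h2 =>
    (H60G2.lin_isBase hfr hS hv A).2 ⟨h2, (H60G2.lin_indep v _).1 h1⟩
  have hb2 : ∀ A : Finset (Fin r ⊕ Fin r), (H60G2.lin (K := K) w).Indep
      (A : Set (Fin r ⊕ Fin r)) → A.card = r → (H60G2.lin (K := K) w).IsBase
      (A : Set (Fin r ⊕ Fin r)) := fun A h1 h2 =>
    (H60G2.lin_isBase hfr hS hw A).2 ⟨h2, (H60G2.lin_indep w _).1 h1⟩
  have hFS : H97CB.FF v w S ≠ 0 := (H97CB.FF_ne_zero v w S).2 ⟨hS, hv, hw⟩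
  have h := path r (H97CB.FF v w) (H60G2.lin (K := K) v) (H60G2.lin (K := K) w) hE hF
    (fun C hC => H97CB.FF_sum hrel C hC) ?_ S hFS
  · exact Relation.ReflTransGen.mono (fun A A' h => ⟨(hFM A' h.1).1, (hFM A' h.1).2, h.2⟩) _ _ h
  · intro j h3 hjr hlow P hP C hC
    rcases Nat.eq_or_lt_of_le h3 with rfl | h3
    · exact levelThree K _ r _ _ _ hb1 hb2 hF (fun C hC => H97CB.FF_sum hrel C hC) P hP C hC
    rcases lt_or_ge (r + 2) (4 * j) with h4 | h4
    · exact LS _ _ _ rfl rfl hb1 hb2 hF hFc (fun C hC => H97CB.FF_sum hrel C hC) j h4 hjr hlow P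
        hP C hC
    · obtain ⟨i, hi0, hij, hc⟩ := hcond j h3 h4
      refine binom_step (f := res (H97CB.FF v w) P) (k := r)
        (res_card (fun A h => ((hF A).1 h).1) P) hij.le hc ?_ C hC
      intro C' hC'
      exact hlow P hP C' (by omega) (by omega)

/-- **Single exchanges.** -/
theorem single_swap {α V : Type*} [AddCommGroup V] [Module K V]
    (M : Matroid α) (φ : α → V) (hφ : ∀ X ⊆ M.E, M.Indep X ↔ LinearIndepOn K φ X)
    {B B' : Set α} (hB : M.IsBase B) (hB' : M.IsBase B') (hfin : B.Finite)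
    (LS : ∀ r, LevelStep K (Fin r ⊕ Fin r) r)
    (hcond : ∀ j, 4 ≤ j → 4 * j ≤ (B \ B').ncard + 2 →
      ∃ i, 0 < i ∧ i < j ∧ ((j.choose i : ℕ) : K) ≠ 0) :
    Relation.ReflTransGen (H11SW.SymExchange M) (B, B') (B', B) :=
  H60G2.swap1_of_core M φ hφ hB hB' hfin rfl fun v w h S hS hd =>
    core1 (LS _) hcond v w h S hS hd

/-- The condition on the field and the number of elements. -/
theorem cond_of {n : ℕ} (h : n ≤ 13 ∨ ((3 : K) = 0 ∧ n ≤ 33) ∨
      ∀ s : ℕ, 0 < s → 4 * s ≤ n + 2 → (s : K) ≠ 0) :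
    ∀ j, 4 ≤ j → 4 * j ≤ n + 2 → ∃ i, 0 < i ∧ i < j ∧ ((j.choose i : ℕ) : K) ≠ 0 := by
  intro j h4 hj
  rcases h with h | ⟨h3, h⟩ | h
  · omega
  · have h2 : (2 : K) ≠ 0 := by
      intro h2
      have : (1 : K) = 3 - 2 := by norm_num
      rw [h3, h2, sub_zero] at this
      exact one_ne_zero this
    have hj8 : j ≤ 8 := by omega
    have key : ∀ m : ℕ, ((3 * m + 1 : ℕ) : K) ≠ 0 ∧ ((3 * m + 2 : ℕ) : K) ≠ 0 := by
      intro m
      push_cast
      rw [h3, zero_mul, zero_add, zero_add]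
      exact ⟨one_ne_zero, h2⟩
    interval_cases j
    · exact ⟨1, by omega, by omega, (key 1).1⟩
    · exact ⟨1, by omega, by omega, (key 1).2⟩
    · exact ⟨3, by omega, by omega, (key 6).2⟩
    · exact ⟨1, by omega, by omega, (key 2).1⟩
    · exact ⟨1, by omega, by omega, (key 2).2⟩
  · refine ⟨1, by omega, by omega, ?_⟩
    rw [Nat.choose_one_right]
    exact h j (by omega) hj

end Pool.Agent.H60S1
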