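import Pool.Agent.H60S1.App
import Pool.Agent.H23L4.Four

/-!
# Complements
-/

set_option autoImplicit false

namespace Pool.Agent.H60S1

open Finset

variable {E K : Type*} [Fintype E] [DecidableEq E] [Field K]

theorem compl_all {r : ℕ} (hE : Fintype.card E = 2 * r) {F : Finset E → K}
    (hF : ∀ A, F A ≠ 0 → A.card = r) (hFc : ∀ A : Finset E, A.card = r → F Aᶜ = (-1) ^ r * F A)
    (A : Finset E) : F Aᶜ = (-1) ^ r * F A := by
  by_cases h : A.card = r
  · exact hFc A h
  · have h1 : F A = 0 := by
      by_contra h1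
      exact h (hF A h1)
    have h2 : F Aᶜ = 0 := by
      by_contra h2
      have h3 := hF Aᶜ h2
      rw [card_compl, hE] at h3
      have h4 := card_le_univ A
      rw [hE] at h4
      exact h (by omega)
    rw [h1, h2, mul_zero]

theorem card_inter_compl {r : ℕ} (hE : Fintype.card E = 2 * r) {A A' : Finset E}
    (h : A.card = r) (h' : A'.card = r) : (Aᶜ ∩ A'ᶜ).card = (A ∩ A').card := by
  rw [← compl_union, card_compl, hE]
  have h1 := card_union_add_card_inter A A'
  have h2 := card_le_univ (A ∪ A')
  rw [hE] at h2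
  omega

theorem closed_compl {r : ℕ} (hE : Fintype.card E = 2 * r) {F : Finset E → K}
    (hF : ∀ A, F A ≠ 0 → A.card = r) (hFc : ∀ A : Finset E, A.card = r → F Aᶜ = (-1) ^ r * F A)
    {P : Finset E → Prop} (hP : Closed r F P) : Closed r F fun A => P Aᶜ := by
  intro A A' h1 h2 h3 h4
  have e := compl_all hE hF hFc
  refine hP Aᶜ A'ᶜ h1 ?_ ?_ ?_
  · rw [e]
    exact mul_ne_zero (pow_ne_zero _ (neg_ne_zero.2 one_ne_zero)) h2
  · rw [e]
    exact mul_ne_zero (pow_ne_zero _ (neg_ne_zero.2 one_ne_zero)) h3
  · rw [card_inter_compl hE (hF A h2) (hF A' h3)]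
    exact h4

/-- **The level step**, from the count. -/
theorem levelStep {r : ℕ} (hE : Fintype.card E = 2 * r) : LevelStep K E r := by
  intro F N₁ N₂ hE1 hE2 _ _ hF hFc htot j hj hjr hlow P hP C hC
  have hFr : ∀ A, F A ≠ 0 → A.card = r := fun A h => ((hF A).1 h).1
  have e := compl_all hE hFr hFc
  have hne : ∀ A, F A ≠ 0 → F Aᶜ ≠ 0 := by
    intro A h
    rw [e]
    exact mul_ne_zero (pow_ne_zero _ (neg_ne_zero.2 one_ne_zero)) h
  have hres : ∀ P : Finset E → Prop, H23L4.rs F P = res F P := fun _ => rfl
  have hmx : ∀ (f : Finset E → K) (C D : Finset E), H23L4.mx f C D = mid f C D := fun _ _ _ => rfl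
  have fr : H23L4.Frame r N₁ N₂ F :=
    ⟨hE, hE1, hE2, hF, hne, fun C hC => by
      rw [hmx, mid_empty]
      exact htot C hC⟩
  have key := H23L4.level_q fr (P := P) hP (q := j) ?_ ?_ (by omega) (by omega) C hC
  · rw [hmx, mid_empty, hres] at key
    exact key
  · intro D h1 h2
    rw [hmx, mid_empty, hres]
    exact hlow P hP D h1 h2
  · intro D h1 h2
    rw [hmx, hres]
    have h3 : mid (res F P) ∅ D = (-1) ^ r * up (res F fun A => P Aᶜ) D := by
      unfold mid up
      rw [mul_sum]
      refine sum_bij' (fun A _ => Aᶜ) (fun A _ => Aᶜ) ?_ ?_ ?_ ?_ ?_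
      · intro A hA
        simp only [mem_filter, mem_univ, true_and, empty_subset] at hA ⊢
        intro x hx
        exact mem_compl.2 fun hxA => Finset.disjoint_left.1 hA hxA hx
      · intro A hA
        simp only [mem_filter, mem_univ, true_and, empty_subset] at hA ⊢
        rw [Finset.disjoint_left]
        intro x hx hxD
        exact (mem_compl.1 hx) (hA hxD)
      · intro A _
        exact compl_compl A
      · intro A _
        exact compl_compl A
      · intro A _
        have h6 : (fun A : Finset E => P Aᶜ) Aᶜ = P A := by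
          change P Aᶜᶜ = P A
          rw [compl_compl]
        unfold res
        rw [h6]
        have h4 : (-1 : K) ^ r * (-1) ^ r = 1 := by
          rw [← mul_pow]
          simp
        split_ifs with h5
        · rw [e A, ← mul_assoc, h4, one_mul]
        · rw [mul_zero]
    rw [h3, hlow _ (closed_compl hE hFr hFc hP) D h1 h2, mul_zero]

end Pool.Agent.H60S1
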