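import Pool.Agent.H60S1.Levels
import Pool.Agent.H57K2.Two

/-!
# The induction over the levels
-/

set_option autoImplicit false

namespace Pool.Agent.H60S1

open Finset

variable {E K : Type*} [Fintype E] [DecidableEq E] [Field K]

/-- **Division by binomial coefficients.** -/
theorem binom_step {k : ℕ} {f : Finset E → K} (hf : ∀ A, f A ≠ 0 → A.card = k) {i j : ℕ}
    (hij : i ≤ j) (hc : ((j.choose i : ℕ) : K) ≠ 0)
    (h : ∀ C : Finset E, C.card + (j - i) = k → up f C = 0) (C : Finset E)
    (hC : C.card + j = k) : up f C = 0 := by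
  have h1 : ∑ D ∈ Cᶜ.powersetCard i, up f (C ∪ D) = ((j.choose i : ℕ) : K) * up f C := by
    unfold up
    have e1 : ∀ D ∈ Cᶜ.powersetCard i, ∑ A ∈ univ.filter (fun A => C ∪ D ⊆ A), f A =
        ∑ A ∈ univ.filter (fun A => C ⊆ A), if D ⊆ A then f A else 0 := by
      intro D _
      rw [← sum_filter]
      refine sum_congr ?_ fun _ _ => rfl
      ext A
      simp only [mem_filter, mem_univ, true_and, union_subset_iff]
    rw [sum_congr rfl e1, sum_comm, mul_sum]
    refine sum_congr rfl fun A hA => ?_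
    simp only [mem_filter, mem_univ, true_and] at hA
    rw [← sum_filter, sum_const, nsmul_eq_mul]
    by_cases h0 : f A = 0
    · rw [h0, mul_zero, mul_zero]
    · have h2 : ((Cᶜ.powersetCard i).filter fun D => D ⊆ A) = (A \ C).powersetCard i := by
        ext D
        simp only [mem_filter, mem_powersetCard]
        constructor
        · rintro ⟨⟨h3, h4⟩, h5⟩
          exact ⟨fun x hx => mem_sdiff.2 ⟨h5 hx, mem_compl.1 (h3 hx)⟩, h4⟩
        · rintro ⟨h3, h4⟩
          exact ⟨⟨fun x hx => mem_compl.2 (mem_sdiff.1 (h3 hx)).2, h4⟩,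
            fun x hx => (mem_sdiff.1 (h3 hx)).1⟩
      have h3 := card_sdiff_of_subset hA
      have h4 := hf A h0
      have h5 : (A \ C).card = j := by omega
      rw [h2, card_powersetCard, h5]
  have h2 : ∑ D ∈ Cᶜ.powersetCard i, up f (C ∪ D) = 0 := by
    refine sum_eq_zero fun D hD => h _ ?_
    rw [mem_powersetCard] at hD
    have hdisj : Disjoint C D := by
      rw [Finset.disjoint_left]
      intro x hx hxD
      exact (mem_compl.1 (hD.1 hxD)) hx
    rw [card_union_of_disjoint hdisj, hD.2]
    omega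
  rw [h2] at h1
  exact (mul_eq_zero.1 h1.symm).resolve_left hc

/-- `P` is closed under single exchanges in the support of `F`. -/
def Closed (k : ℕ) (F : Finset E → K) (P : Finset E → Prop) : Prop :=
  ∀ A A', P A → F A ≠ 0 → F A' ≠ 0 → k ≤ (A ∩ A').card + 1 → P A'

open Classical in
/-- The function `F` on `P`. -/
noncomputable def res (F : Finset E → K) (P : Finset E → Prop) (A : Finset E) : K :=
  if P A then F A else 0

theorem res_card {k : ℕ} {F : Finset E → K} (hF : ∀ A, F A ≠ 0 → A.card = k)
    (P : Finset E → Prop) (A : Finset E) (h : res F P A ≠ 0) : A.card = k := by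
  unfold res at h
  split_ifs at h with h1
  · exact hF A h
  · exact absurd rfl h

open Classical in
theorem up_res (F : Finset E → K) (P : Finset E → Prop) (C : Finset E) :
    up (res F P) C = ∑ A ∈ univ.filter (fun A => C ⊆ A ∧ P A), F A := by
  unfold up res
  rw [← sum_filter, filter_filter]

/-- All levels. -/
theorem all_levels (k : ℕ) (F : Finset E → K) (N₁ N₂ : Matroid E)
    (hF : ∀ A : Finset E, F A ≠ 0 ↔ A.card = k ∧ N₁.Indep (A : Set E) ∧ N₂.Indep (A : Set E))
    (htot : ∀ C : Finset E, C.card < k → ∑ A ∈ univ.filter (fun A => C ⊆ A), F A = 0)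
    (hstep : ∀ j, 3 ≤ j → j ≤ k →
      (∀ P, Closed k F P → ∀ C : Finset E, k < C.card + j → C.card < k → up (res F P) C = 0) →
      ∀ P, Closed k F P → ∀ C : Finset E, C.card + j = k → up (res F P) C = 0) :
    ∀ j, 1 ≤ j → j ≤ k → ∀ P, Closed k F P → ∀ C : Finset E, C.card + j = k →
      up (res F P) C = 0 := by
  intro j
  induction j using Nat.strong_induction_on with
  | _ j ih =>
    intro h1 hjk P hP C hC
    rcases lt_or_ge j 3 with h3 | h3
    · rw [up_res]
      interval_cases j
      · exact H57K2.sum_one k F htot P (fun A h => ((hF A).1 h).1) hP C hC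
      · exact H57K2.sum_two k F htot P N₁ N₂ hF hP C hC
    · refine hstep j h3 hjk ?_ P hP C hC
      intro P' hP' C' h4 h5
      exact ih (k - C'.card) (by omega) (by omega) (by omega) P' hP' C' (by omega)

/-- **The path.** -/
theorem path (k : ℕ) (F : Finset E → K) (N₁ N₂ : Matroid E) (hE : Fintype.card E = 2 * k)
    (hF : ∀ A : Finset E, F A ≠ 0 ↔ A.card = k ∧ N₁.Indep (A : Set E) ∧ N₂.Indep (A : Set E))
    (htot : ∀ C : Finset E, C.card < k → ∑ A ∈ univ.filter (fun A => C ⊆ A), F A = 0)
    (hstep : ∀ j, 3 ≤ j → j ≤ k →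
      (∀ P, Closed k F P → ∀ C : Finset E, k < C.card + j → C.card < k → up (res F P) C = 0) →
      ∀ P, Closed k F P → ∀ C : Finset E, C.card + j = k → up (res F P) C = 0)
    (S : Finset E) (hS : F S ≠ 0) :
    Relation.ReflTransGen (fun A A' => F A' ≠ 0 ∧ k ≤ (A ∩ A').card + 1) S Sᶜ := by
  let P : Finset E → Prop := fun A =>
    Relation.ReflTransGen (fun A A' => F A' ≠ 0 ∧ k ≤ (A ∩ A').card + 1) S A
  have hP : Closed k F P := fun A A' hA _ hA' h => hA.tail ⟨hA', h⟩
  have hc := compl_value (f := res F P) hE (res_card (fun A h => ((hF A).1 h).1) P) (by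
    intro C hC
    exact all_levels k F N₁ N₂ hF htot hstep (k - C.card) (by omega) (by omega) P hP C (by omega))
    S ((hF S).1 hS).1
  have h1 : res F P S = F S := if_pos Relation.ReflTransGen.refl
  by_contra hcon
  have h2 : res F P Sᶜ = 0 := if_neg hcon
  rw [h1, h2] at hc
  exact (mul_ne_zero (pow_ne_zero _ (neg_ne_zero.2 one_ne_zero)) hS) hc.symm

end Pool.Agent.H60S1
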