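import Pool.Agent.H60S1.Adapt

/-!
# Single exchanges over every field, for at most thirteen elements, and in characteristic `p`
-/

set_option autoImplicit false

namespace Pool.Agent.H60S1

/-- **Single exchanges.** Let `M` be represented over the field `K`, let `B`, `B'` be finite bases,
and `n = |B - B'|`. If `n ≤ 13`, or `K` has characteristic `3` and `n ≤ 33`, or all positive
integers `s` with `4 s ≤ n + 2` are nonzero in `K`, then symmetric exchanges lead from `(B, B')` to
`(B', B)`. -/
theorem single {K : Type*} [Field K] {α V : Type*} [AddCommGroup V] [Module K V]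
    (M : Matroid α) (φ : α → V) (hφ : ∀ X ⊆ M.E, M.Indep X ↔ LinearIndepOn K φ X)
    {B B' : Set α} (hB : M.IsBase B) (hB' : M.IsBase B') (hfin : B.Finite)
    (h : (B \ B').ncard ≤ 13 ∨ ((3 : K) = 0 ∧ (B \ B').ncard ≤ 33) ∨
      ∀ s : ℕ, 0 < s → 4 * s ≤ (B \ B').ncard + 2 → (s : K) ≠ 0) :
    Relation.ReflTransGen (H11SW.SymExchange M) (B, B') (B', B) :=
  single_swap M φ hφ hB hB' hfin (fun r => levelStep (by simp [two_mul])) (cond_of h)

end Pool.Agent.H60S1
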