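import Mathlib

/-!
# Link sums: division, even levels, the dual step and the conclusion

`f` is a function on the finite subsets of `E` whose support consists of `k`-sets.
-/

set_option autoImplicit false

namespace Pool.Agent.H60S1

open Finset

variable {E K : Type*} [Fintype E] [DecidableEq E] [Field K]

/-- The sum over the sets which contain `C`. -/
def up (f : Finset E → K) (C : Finset E) : K := ∑ A ∈ univ.filter (fun A => C ⊆ A), f A

/-- The sum over the sets which contain `C` and are disjoint from `D`. -/
def mid (f : Finset E → K) (C D : Finset E) : K :=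
  ∑ A ∈ univ.filter (fun A => C ⊆ A ∧ Disjoint A D), f A

theorem mid_empty (f : Finset E → K) (C : Finset E) : mid f C ∅ = up f C := by
  unfold mid up
  refine sum_congr ?_ fun _ _ => rfl
  ext A
  simp

/-- One more element on the right. -/
theorem mid_insert (f : Finset E → K) (C D : Finset E) (z : E) (hz : z ∉ D) :
    mid f C (insert z D) = mid f C D - mid f (insert z C) D := by
  unfold mid
  rw [eq_sub_iff_add_eq, ← sum_union]
  · refine sum_congr ?_ fun _ _ => rfl
    ext A
    simp only [mem_union, mem_filter, mem_univ, true_and, disjoint_insert_right,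
      insert_subset_iff]
    tauto
  · rw [Finset.disjoint_left]
    intro A h1 h2
    simp only [mem_filter, mem_univ, true_and, disjoint_insert_right, insert_subset_iff] at h1 h2
    exact h1.2.1 h2.1.1

/-- If the upper sums of the sizes between `|C| + 1` and `|C| + |D|` vanish, the set `D` on the
right can be dropped. -/
theorem mid_eq_up (f : Finset E → K) (m : ℕ) : ∀ (D C : Finset E), Disjoint C D →
    (∀ C' : Finset E, C.card < C'.card → C'.card ≤ C.card + m → up f C' = 0) → D.card ≤ m →
    mid f C D = up f C := by
  intro D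
  induction D using Finset.induction_on generalizing m with
  | empty =>
    intro C _ _ _
    exact mid_empty f C
  | insert z D hz ih =>
    intro C hCD h hm
    rw [card_insert_of_notMem hz] at hm
    rw [disjoint_insert_right] at hCD
    obtain ⟨m, rfl⟩ : ∃ m', m = m' + 1 := ⟨m - 1, by omega⟩
    have h1 : (insert z C).card = C.card + 1 := card_insert_of_notMem hCD.1
    rw [mid_insert f C D z hz, ih (m + 1) C hCD.2 h (by omega),
      ih m (insert z C) ?_ ?_ (by omega), h (insert z C) (by omega) (by omega), sub_zero]
    · rw [disjoint_insert_left]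
      exact ⟨hz, hCD.2⟩
    · intro C' h2 h3
      exact h C' (by omega) (by omega)

/-- The values with everything on the left vanish if the sums over the complements vanish. -/
theorem mid_eq_zero (f : Finset E → K) (m : ℕ) : ∀ (C D : Finset E), Disjoint C D →
    (∀ D' : Finset E, D.card ≤ D'.card → D'.card ≤ D.card + m → mid f ∅ D' = 0) → C.card ≤ m →
    mid f C D = 0 := by
  intro C
  induction C using Finset.induction_on generalizing m with
  | empty =>
    intro D _ h _
    exact h D le_rfl (by omega)
  | insert z C hz ih =>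
    intro D hCD h hm
    rw [card_insert_of_notMem hz] at hm
    rw [disjoint_insert_left] at hCD
    obtain ⟨m, rfl⟩ : ∃ m', m = m' + 1 := ⟨m - 1, by omega⟩
    have h1 : (insert z D).card = D.card + 1 := card_insert_of_notMem hCD.1
    have h2 := mid_insert f C D z hCD.1
    rw [ih m (insert z D) ?_ ?_ (by omega), ih (m + 1) D hCD.2 h (by omega), zero_sub] at h2
    · exact (neg_eq_zero.1 h2.symm)
    · rw [disjoint_insert_right]
      exact ⟨hz, hCD.2⟩
    · intro D' h3 h4
      exact h D' (by omega) (by omega)

variable {k : ℕ} {f : Finset E → K}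

/-- **Division.** -/
theorem div_step (hf : ∀ A, f A ≠ 0 → A.card = k) {j : ℕ} (hj : ((j + 1 : ℕ) : K) ≠ 0)
    (h : ∀ C : Finset E, C.card + j = k → up f C = 0) (C : Finset E) (hC : C.card + (j + 1) = k) :
    up f C = 0 := by
  have h1 : ∑ e ∈ Cᶜ, up f (insert e C) = ((j + 1 : ℕ) : K) * up f C := by
    unfold up
    have e1 : ∀ e ∈ Cᶜ, ∑ A ∈ univ.filter (fun A => insert e C ⊆ A), f A =
        ∑ A ∈ univ.filter (fun A => C ⊆ A), if e ∈ A then f A else 0 := by
      intro e _
      rw [← sum_filter]
      refine sum_congr ?_ fun _ _ => rfl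
      ext A
      simp only [mem_filter, mem_univ, true_and, insert_subset_iff]
      tauto
    rw [sum_congr rfl e1, sum_comm, mul_sum]
    refine sum_congr rfl fun A hA => ?_
    simp only [mem_filter, mem_univ, true_and] at hA
    rw [← sum_filter, sum_const, nsmul_eq_mul]
    by_cases h0 : f A = 0
    · rw [h0, mul_zero, mul_zero]
    · have h2 : (Cᶜ.filter fun e => e ∈ A) = A \ C := by
        ext x
        simp only [mem_filter, mem_compl, mem_sdiff]
        tauto
      have h3 := card_sdiff_of_subset hA
      have h4 := hf A h0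
      have h5 : (A \ C).card = j + 1 := by omega
      rw [h2, h5]
  have h2 : ∑ e ∈ Cᶜ, up f (insert e C) = 0 := by
    refine sum_eq_zero fun e he => h _ ?_
    rw [card_insert_of_notMem (mem_compl.1 he)]
    omega
  rw [h2] at h1
  exact (mul_eq_zero.1 h1.symm).resolve_left hj

/-- The alternating sum. -/
theorem up_alt (f : Finset E → K) (C Z : Finset E) (h : Disjoint C Z) :
    mid f C Z = ∑ D ∈ Z.powerset, (-1 : K) ^ D.card * up f (C ∪ D) := by
  induction Z using Finset.induction_on generalizing C with
  | empty => simp [mid_empty]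
  | insert z Z hz ih =>
    rw [disjoint_insert_right] at h
    rw [mid_insert f C Z z hz, ih C h.2, ih (insert z C) (by
      rw [disjoint_insert_left]
      exact ⟨hz, h.2⟩), sum_powerset_insert hz, sub_eq_add_neg, ← sum_neg_distrib]
    congr 1
    refine sum_congr rfl fun D hD => ?_
    have h1 : z ∉ D := fun h => hz (mem_powerset.1 hD h)
    rw [card_insert_of_notMem h1, pow_succ, insert_union, union_insert]
    ring

/-- **Even levels.** -/
theorem even_step (hf : ∀ A, f A ≠ 0 → A.card = k) {j : ℕ} (hj : Even j) (h2 : (2 : K) ≠ 0)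
    (hj0 : 0 < j)
    (h : ∀ C : Finset E, k < C.card + j → C.card < k → up f C = 0) (C : Finset E)
    (hC : C.card + j = k) : up f C = 0 := by
  have hk : ∀ D : Finset E, k < D.card → up f D = 0 := by
    intro D hD
    refine sum_eq_zero fun A hA => ?_
    by_contra h0
    have h3 := card_le_card (mem_filter.1 hA).2
    have h4 := hf A h0
    omega
  have hk' : ∀ D : Finset E, D.card = k → up f D = f D := by
    intro D hD
    unfold up
    rw [sum_eq_single D]
    · intro A hA hAD
      by_contra h0
      have h3 := (mem_filter.1 hA).2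
      exact hAD (eq_of_subset_of_card_le h3 (by rw [hf A h0, hD])).symm
    · intro h3
      exact absurd (mem_filter.2 ⟨mem_univ _, Subset.rfl⟩) h3
  have e1 := up_alt f C Cᶜ disjoint_compl_right
  have e0 : mid f C Cᶜ = 0 := by
    refine sum_eq_zero fun A hA => ?_
    by_contra h0
    have h3 := (mem_filter.1 hA).2
    have h4 : A ⊆ C := by
      intro x hx
      by_contra hxC
      exact Finset.disjoint_left.1 h3.2 hx (mem_compl.2 hxC)
    have h5 := card_le_card h4
    have h6 := hf A h0
    omega
  rw [e0] at e1
  -- only `D = ∅` and `|D| = j` contribute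
  have e2 : ∑ D ∈ Cᶜ.powerset, (-1 : K) ^ D.card * up f (C ∪ D) =
      up f C + ∑ D ∈ Cᶜ.powerset, if D.card = j then f (C ∪ D) else 0 := by
    have e3 : ∀ D ∈ Cᶜ.powerset, (-1 : K) ^ D.card * up f (C ∪ D) =
        (if D = ∅ then up f C else 0) + if D.card = j then f (C ∪ D) else 0 := by
      intro D hD
      have hdisj : Disjoint C D := by
        rw [Finset.disjoint_left]
        intro x hx hxD
        exact (mem_compl.1 (mem_powerset.1 hD hxD)) hx
      have hc := card_union_of_disjoint hdisj
      rcases eq_or_ne D ∅ with rfl | hD0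
      · rw [if_pos rfl, card_empty, if_neg (by omega)]
        simp
      · rw [if_neg hD0, zero_add]
        have h7 : 0 < D.card := card_pos.2 (nonempty_iff_ne_empty.2 hD0)
        by_cases h8 : D.card = j
        · rw [if_pos h8, h8, hj.neg_one_pow, one_mul, hk' _ (by omega)]
        · rw [if_neg h8]
          rcases lt_or_gt_of_ne h8 with h9 | h9
          · rw [h _ (by omega) (by omega), mul_zero]
          · rw [hk _ (by omega), mul_zero]
    rw [sum_congr rfl e3, sum_add_distrib, sum_ite_eq' Cᶜ.powerset ∅,
      if_pos (empty_mem_powerset _)]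
  have e4 : (∑ D ∈ Cᶜ.powerset, if D.card = j then f (C ∪ D) else 0) = up f C := by
    rw [← sum_filter]
    unfold up
    refine sum_bij_ne_zero (fun D _ _ => C ∪ D) ?_ ?_ ?_ ?_
    · intro D hD _
      exact mem_filter.2 ⟨mem_univ _, subset_union_left⟩
    · intro D hD _ D' hD' _ he
      have a1 : Disjoint C D := by
        rw [Finset.disjoint_left]
        intro x hx hxD
        exact (mem_compl.1 (mem_powerset.1 (mem_filter.1 hD).1 hxD)) hx
      have a2 : Disjoint C D' := by
        rw [Finset.disjoint_left]
        intro x hx hxD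
        exact (mem_compl.1 (mem_powerset.1 (mem_filter.1 hD').1 hxD)) hx
      rw [← union_sdiff_cancel_left a1, he, union_sdiff_cancel_left a2]
    · intro A hA h0
      have h3 := (mem_filter.1 hA).2
      refine ⟨A \ C, ?_, ?_, ?_⟩
      · refine mem_filter.2 ⟨mem_powerset.2 fun x hx => mem_compl.2 (mem_sdiff.1 hx).2, ?_⟩
        have h5 := card_sdiff_of_subset h3
        have h6 := hf A h0
        omega
      · rwa [union_sdiff_of_subset h3]
      · exact union_sdiff_of_subset h3
    · intro D _ _
      rfl
  rw [e2, e4] at e1
  have e5 : (2 : K) * up f C = 0 := by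
    rw [two_mul]
    exact e1.symm
  exact (mul_eq_zero.1 e5).resolve_left h2

/-- **The dual step.** -/
theorem dual_step (hE : Fintype.card E = 2 * k) {j : ℕ}
    (hj : k + 2 ≤ 2 * j) (hjk : j ≤ k)
    (h : ∀ C : Finset E, k < C.card + j → C.card < k → up f C = 0)
    (h' : ∀ D : Finset E, k < D.card + j → D.card < k → mid f ∅ D = 0) (C : Finset E)
    (hC : C.card + j = k) : up f C = 0 := by
  have h1 : C.card + 1 ≤ Cᶜ.card := by
    rw [card_compl, hE]
    omega
  obtain ⟨D, hD, hDc⟩ := exists_subset_card_eq h1
  have hdisj : Disjoint C D := by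
    rw [Finset.disjoint_left]
    intro x hx hxD
    exact (mem_compl.1 (hD hxD)) hx
  rw [← mid_eq_up f (C.card + 1) D C hdisj (fun C' h2 h3 => h C' (by omega) (by omega)) hDc.le]
  exact mid_eq_zero f C.card C D hdisj (fun D' h2 h3 => h' D' (by omega) (by omega)) le_rfl

/-- **The conclusion.** -/
theorem compl_value (hE : Fintype.card E = 2 * k) (hf : ∀ A, f A ≠ 0 → A.card = k)
    (h : ∀ C : Finset E, C.card < k → up f C = 0) (S : Finset E) (hS : S.card = k) :
    f Sᶜ = (-1) ^ k * f S := by
  have e1 := up_alt f ∅ S (disjoint_empty_left _)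
  have e2 : mid f ∅ S = f Sᶜ := by
    unfold mid
    rw [sum_eq_single Sᶜ]
    · intro A hA hAS
      by_contra h0
      have h3 := (mem_filter.1 hA).2.2
      have h4 : A ⊆ Sᶜ := by
        intro x hx
        exact mem_compl.2 fun hxS => Finset.disjoint_left.1 h3 hx hxS
      refine hAS (eq_of_subset_of_card_le h4 ?_)
      rw [card_compl, hE, hf A h0, hS]
      omega
    · intro h3
      refine absurd (mem_filter.2 ⟨mem_univ _, empty_subset _, ?_⟩) h3
      exact disjoint_compl_left
  have e3 : ∑ D ∈ S.powerset, (-1 : K) ^ D.card * up f (∅ ∪ D) = (-1) ^ k * f S := by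
    rw [sum_eq_single S]
    · rw [empty_union, hS]
      congr 1
      unfold up
      rw [sum_eq_single S]
      · intro A hA hAD
        by_contra h0
        have h3 := (mem_filter.1 hA).2
        exact hAD (eq_of_subset_of_card_le h3 (by rw [hf A h0, hS])).symm
      · intro h3
        exact absurd (mem_filter.2 ⟨mem_univ _, Subset.rfl⟩) h3
    · intro D hD hDS
      have h3 := mem_powerset.1 hD
      have h4 : D.card < S.card := card_lt_card (lt_of_le_of_ne h3 hDS)
      rw [empty_union, h D (by omega), mul_zero]
    · intro h3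
      exact absurd (mem_powerset.2 Subset.rfl) h3
  rw [← e2, e1, e3]

end Pool.Agent.H60S1
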